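import Pool.Agent.Helper96.CT.Stmts3
import Pool.Agent.Helper39.CT.LO

/-! # CT: the row HB -/

set_option autoImplicit false

namespace Pool.Agent.Helper37.CT

open SimpleGraph Pool.Agent.Helper96.CT
open Pool.Agent.Helper39.CT (VV cp FF)

/-- the index of the clique of a vertex -/
def cc {a b t : ℕ} : VV a b t → ℕ
  | .inl _ => 0
  | .inr p => p.1.val + 1

theorem cc_cp {a b t : ℕ} (u v : VV a b t) (h : cp u = cp v) : cc u = cc v := by
  rcases u with x | ⟨i, x⟩ <;> rcases v with y | ⟨j, y⟩
  · rfl
  · simp [cp] at h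
  · simp [cp] at h
  · simp only [cp, Option.some.injEq] at h
    rw [h]
    rfl

/-- the number of a vertex in its clique -/
def ix {a b t : ℕ} (r : Fin a) : VV a b t → Fin a
  | .inl _ => r
  | .inr p => p.2

theorem st_HB : ST_HB := by
  classical
  intro t a ht ha
  obtain ⟨c, hc⟩ : ∃ c : Fin (a + 1), c.val = 0 := ⟨⟨0, by omega⟩, rfl⟩
  obtain ⟨r, hr⟩ : ∃ r : Fin a, r.val = 0 := ⟨⟨0, by omega⟩, rfl⟩
  obtain ⟨c1, hc1⟩ : ∃ c : Fin (a + 1), c.val = 1 := ⟨⟨1, by omega⟩, rfl⟩
  obtain ⟨r1, hr1⟩ : ∃ r : Fin a, r.val = 1 := ⟨⟨1, by omega⟩, rfl⟩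
  obtain ⟨i0, hi0⟩ : ∃ i : Fin (t - 1), i.val = 0 := ⟨⟨0, by omega⟩, rfl⟩
  have hcc : c1 ≠ c := fun h => by rw [h, hc] at hc1; omega
  have hrr : r1 ≠ r := fun h => by rw [h, hr] at hr1; omega
  refine ⟨VV a (a + 1) (t - 1), inferInstance, FF c r, Sum.inl c, cc, ?_, ?_, ?_, ?_, ?_, ?_⟩
  · have h1 : Fintype.card (VV a (a + 1) (t - 1)) = (a + 1) + (t - 1) * a := by simp [VV]
    rw [h1]
    obtain ⟨s, rfl⟩ := Nat.exists_eq_add_of_le ht
    rw [show 2 + s - 1 = s + 1 by omega]
    ring
  · have key : ∀ v : VV a (a + 1) (t - 1), (FF c r).Reachable (Sum.inl c) v := by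
      intro v
      rcases v with x | ⟨i, x⟩
      · by_cases hx : x = c
        · rw [hx]
        · exact Adj.reachable ⟨fun h => hx (Sum.inl.inj h).symm, Or.inl rfl⟩
      · have h1 : (FF c r).Adj (Sum.inl c) (Sum.inr (i, r)) :=
          ⟨by simp, Or.inr (Or.inl ⟨rfl, i, rfl⟩)⟩
        by_cases hx : x = r
        · rw [hx]; exact h1.reachable
        · exact h1.reachable.trans (Adj.reachable
            ⟨fun h => hx (Prod.mk.inj (Sum.inr.inj h)).2.symm, Or.inl rfl⟩)
    have : Nonempty (VV a (a + 1) (t - 1)) := ⟨Sum.inl c⟩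
    exact ⟨fun u v => (key u).symm.trans (key v)⟩
  · have k1 : ∀ x : Fin (a + 1), x ≠ c → ∀ p : Fin (t - 1) × Fin a,
        (FF c r)ᶜ.Adj (Sum.inl x) (Sum.inr p) := by
      intro x hx p
      rw [compl_adj]
      refine ⟨by simp, fun h => ?_⟩
      rcases h.2 with h1 | ⟨h1, _⟩ | ⟨h1, _⟩
      · simp [cp] at h1
      · exact hx (Sum.inl.inj h1)
      · simp at h1
    have k2 : (FF c r)ᶜ.Adj (Sum.inl c) (Sum.inr (i0, r1)) := by
      rw [compl_adj]
      refine ⟨by simp, fun h => ?_⟩
      rcases h.2 with h1 | ⟨_, i, h1⟩ | ⟨h1, _⟩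
      · simp [cp] at h1
      · exact hrr (Prod.mk.inj (Sum.inr.inj h1)).2
      · simp at h1
    have key : ∀ v : VV a (a + 1) (t - 1), (FF c r)ᶜ.Reachable (Sum.inl c1) v := by
      intro v
      rcases v with x | p
      · by_cases hx : x = c
        · rw [hx]
          exact (k1 c1 hcc (i0, r1)).reachable.trans k2.symm.reachable
        · exact (k1 c1 hcc (i0, r1)).reachable.trans (k1 x hx (i0, r1)).symm.reachable
      · exact (k1 c1 hcc p).reachable
    have : Nonempty (VV a (a + 1) (t - 1)) := ⟨Sum.inl c⟩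
    exact ⟨fun u v => (key u).symm.trans (key v)⟩
  · intro I hI
    have hinj : Set.InjOn (cp : VV a (a + 1) (t - 1) → Option (Fin (t - 1)))
        (I : Set (VV a (a + 1) (t - 1))) := by
      intro x hx y hy hxy
      by_contra hne
      exact hI x hx y hy hne ⟨hne, Or.inl hxy⟩
    have := Finset.card_le_card_of_injOn (t := (Finset.univ : Finset (Option (Fin (t - 1))))) cp
      (fun x _ => Finset.mem_coe.2 (Finset.mem_univ _)) hinj
    have h2 : (Finset.univ : Finset (Option (Fin (t - 1)))).card = t := by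
      rw [Finset.card_univ, Fintype.card_option, Fintype.card_fin]
      omega
    rwa [h2] at this
  · intro i I hI
    rcases i with _ | j
    · have hs : insert (Sum.inl c) I ⊆
          (Finset.univ : Finset (Fin (a + 1))).image (fun x => Sum.inl x) := by
        intro y hy
        rw [Finset.mem_insert] at hy
        rcases hy with rfl | hy
        · simp
        · have hy' := (hI y hy).2
          rcases y with x | p
          · simp
          · simp [cc] at hy'
      have h1 := Finset.card_le_card hs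
      have hn : Sum.inl c ∉ I := fun h => (hI _ h).1 rfl
      rw [Finset.card_insert_of_notMem hn] at h1
      have h2 : ((Finset.univ : Finset (Fin (a + 1))).image
          (fun x => (Sum.inl x : VV a (a + 1) (t - 1)))).card ≤ a + 1 :=
        Finset.card_image_le.trans (by simp)
      omega
    · have hinj : Set.InjOn (ix r : VV a (a + 1) (t - 1) → Fin a)
          (I : Set (VV a (a + 1) (t - 1))) := by
        intro x hx y hy hxy
        have h1 := (hI x hx).2
        have h2 := (hI y hy).2
        rcases x with x | ⟨i1, x⟩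
        · simp [cc] at h1
        · rcases y with y | ⟨i2, y⟩
          · simp [cc] at h2
          · have e1 : i1.val + 1 = j + 1 := h1
            have e2 : i2.val + 1 = j + 1 := h2
            have e3 : x = y := hxy
            have e4 : i1 = i2 := Fin.ext (by omega)
            rw [e3, e4]
      have := Finset.card_le_card_of_injOn (t := (Finset.univ : Finset (Fin a))) (ix r)
        (fun x _ => Finset.mem_coe.2 (Finset.mem_univ _)) hinj
      simpa using this
  · intro u v huv hu hv
    rcases huv.2 with h | ⟨h, _⟩ | ⟨h, _⟩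
    · exact cc_cp u v h
    · exact absurd h hu
    · exact absurd h hv

end Pool.Agent.Helper37.CT
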